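import Pool.Agent.Zk83.SB.Stm8
import Pool.Agent.T2H99.AW.MD

/-!
# Exponential concentration of the maximum of a bounded local function
-/

set_option autoImplicit false

namespace Pool.Agent.Zk69.SB.X1

open MeasureTheory ProbabilityTheory Filter Topology Finset
open Pool.Agent.Zk58.EK Pool.Agent.Zk83.SB

variable {d k : ℕ} {S : Type}

open Classical in
/-- the number of the translates which see the bond `y` -/
theorem sees (R : ℕ) (D : Finset (Site d)) (y : Bond d) :
    ({x ∈ D | y ∈ bonds (cube x R)} : Finset (Site d)).card ≤ R ^ d := by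
  have h1 : ({x ∈ D | y ∈ bonds (cube x R)} : Finset (Site d)) ⊆ cube (fun i => y.1 i - R + 1) R := by
    intro x hx
    rw [mem_filter, mem_bonds] at hx
    have h := hx.2.1
    rw [mem_cube] at h ⊢
    intro i
    have := h i
    constructor <;> omega
  exact (card_le_card h1).trans (card_cube _ _).le

open Classical in
theorem En_diff {R : ℕ} {G : (Bond d → S) → Cfg d k → ℝ} (hG : IsLocal R G) {C : ℝ}
    (hC : ∀ X σ, IsConf σ → |G X σ| ≤ C) {X Y : Bond d → S} {y : Bond d} (hXY : ∀ e, e ≠ y → X e = Y e)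
    (D : Finset (Site d)) {σ : Cfg d k} (hσ : IsConf σ) :
    En G X D σ ≤ En G Y D σ + 2 * C * (R : ℝ) ^ d := by
  have hC0 : 0 ≤ C := (abs_nonneg _).trans (hC X σ hσ)
  have h1 : En G X D σ ≤ En G Y D σ + ∑ x ∈ D, if y ∈ bonds (cube x R) then 2 * C else 0 := by
    unfold En
    rw [← sum_add_distrib]
    refine sum_le_sum fun x _ => ?_
    split_ifs with h
    · have h1 := abs_le.1 (hC (th x X) (sh x σ) (conf_sh hσ x))
      have h2 := abs_le.1 (hC (th x Y) (sh x σ) (conf_sh hσ x))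
      linarith [h1.2, h2.1]
    · rw [add_zero]
      refine le_of_eq (loc_shift hG (fun e he => hXY e ?_) fun _ _ _ => rfl)
      rintro rfl
      exact h he
  have h2 : ∑ x ∈ D, (if y ∈ bonds (cube x R) then 2 * C else 0) ≤ 2 * C * (R : ℝ) ^ d := by
    rw [← sum_filter, sum_const, nsmul_eq_mul, mul_comm]
    refine mul_le_mul_of_nonneg_left ?_ (by positivity)
    exact_mod_cast sees R D y
  linarith

theorem Mx_diff {R : ℕ} {G : (Bond d → S) → Cfg d k → ℝ} (hG : IsLocal R G) {C : ℝ}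
    (hC : ∀ X σ, IsConf σ → |G X σ| ≤ C) {X Y : Bond d → S} {y : Bond d} (hXY : ∀ e, e ≠ y → X e = Y e)
    (c : Site d) (n : ℕ) : Mx R G X c n ≤ Mx R G Y c n + 2 * C * (R : ℝ) ^ d := by
  obtain ⟨A, hA⟩ := exists_Mx R G X c n
  rw [hA]
  have h1 := En_diff hG hC hXY (cube c n) (conf_sp A)
  have h2 := En_le_Mx hG Y c n (conf_sp A)
  linarith

theorem Mx_bound {R : ℕ} {G : (Bond d → S) → Cfg d k → ℝ} {C : ℝ}
    (hC : ∀ X σ, IsConf σ → |G X σ| ≤ C) (X : Bond d → S) (c : Site d) (n : ℕ) :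
    |Mx R G X c n| ≤ C * (n : ℝ) ^ d := by
  obtain ⟨A, hA⟩ := exists_Mx R G X c n
  rw [hA]
  unfold En
  refine (abs_sum_le_sum_abs _ _).trans ?_
  refine (sum_le_sum fun x _ => hC _ _ (conf_sh (conf_sp A) x)).trans ?_
  rw [sum_const, card_cube, nsmul_eq_mul, mul_comm]
  push_cast
  exact le_rfl

open Classical in
/-- the environment outside `A` is replaced by a constant -/
noncomputable def rs (s0 : S) (A : Finset (Bond d)) (X : Bond d → S) : Bond d → S :=
  fun e => if e ∈ A then X e else s0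

/-- the σ-algebra of one bond -/
@[instance_reducible]
def mm [MeasurableSpace S] (e : Bond d) : MeasurableSpace (Bond d → S) :=
  MeasurableSpace.comap (fun X : Bond d → S => X e) inferInstance

theorem rs_meas [MeasurableSpace S] (s0 : S) (A : Finset (Bond d)) :
    Measurable[⨆ x : A, mm (S := S) (x : Bond d)] (rs s0 A) := by
  refine @measurable_pi_lambda _ _ _ (⨆ x : A, mm (S := S) (x : Bond d)) _ _ fun e => ?_
  by_cases he : e ∈ A
  · have h1 : (fun X : Bond d → S => rs s0 A X e) = fun X => X e := by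
      funext X
      simp [rs, he]
    rw [h1]
    exact (comap_measurable (fun X : Bond d → S => X e)).mono
      (le_iSup (fun x : A => mm (S := S) (x : Bond d)) ⟨e, he⟩) le_rfl
  · have h1 : (fun X : Bond d → S => rs s0 A X e) = fun _ => s0 := by
      funext X
      simp [rs, he]
    rw [h1]
    exact @measurable_const _ _ _ (⨆ x : A, mm (S := S) (x : Bond d)) _

theorem ind [MeasurableSpace S] (μ : Measure S) [IsProbabilityMeasure μ] :
    iIndep (mm (S := S) (d := d)) (PX d μ) := by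
  have h := iIndepFun_infinitePi (P := fun _ : Bond d => μ) (X := fun _ (s : S) => s)
    (fun _ => measurable_id)
  rw [iIndepFun_iff_iIndep] at h
  exact h

theorem arith {a B D N c : ℝ} (hB : 0 < B) (hD : 0 < D) (hN : 0 < N) (hc : 0 < c) (h : c ≤ D * N) :
    a ^ 2 / (8 * B ^ 2 * D) * N ≤ (a * N) ^ 2 / (8 * B ^ 2 * c) := by
  rw [le_div_iff₀ (by positivity)]
  have e : a ^ 2 / (8 * B ^ 2 * D) * N * (8 * B ^ 2 * c) = a ^ 2 * N * (c / D) := by
    field_simp
  rw [e]
  have h4 : c / D ≤ N := by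
    rw [div_le_iff₀ hD]
    linarith
  calc a ^ 2 * N * (c / D) ≤ a ^ 2 * N * N := mul_le_mul_of_nonneg_left h4 (by positivity)
    _ = _ := by ring

theorem t_X1 : StX1 := by
  classical
  intro d k R hd S _ μ _ G C hG hC ε hε
  obtain ⟨s0⟩ : Nonempty S := nonempty_of_isProbabilityMeasure μ
  have hC0 : 0 ≤ C := (abs_nonneg _).trans (hC (fun _ => s0) (spk ∅) (conf_sp ∅))
  set B : ℝ := 2 * C * (R : ℝ) ^ d + 1 with hB
  have hB0 : 0 < B := by positivity
  have hd0 : (0 : ℝ) < d := by exact_mod_cast hd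
  -- the mean
  have hlim := Metric.tendsto_nhds.1 (gl_lim hG) (ε / 2) (by positivity)
  obtain ⟨n1, hn1⟩ := eventually_atTop.1 hlim
  refine ⟨(ε / 2) ^ 2 / (8 * B ^ 2 * (d * 2 ^ d)), by positivity, max n1 (max 2 R), fun n hn => ?_⟩
  have hnn1 : n1 ≤ n := (le_max_left _ _).trans hn
  have hn2 : 2 ≤ n := ((le_max_left _ _).trans (le_max_right _ _)).trans hn
  have hnR : R ≤ n := ((le_max_right _ _).trans (le_max_right _ _)).trans hn
  have hn0 : (0 : ℝ) < n := by exact_mod_cast (by omega : 0 < n)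
  have hnd : (0 : ℝ) < (n : ℝ) ^ d := by positivity
  have hmean : |am μ R G n - (n : ℝ) ^ d * gl μ R G| ≤ ε / 2 * (n : ℝ) ^ d := by
    have h := hn1 n hnn1
    rw [Real.dist_eq] at h
    have e : am μ R G n - (n : ℝ) ^ d * gl μ R G = (am μ R G n / (n : ℝ) ^ d - gl μ R G) * (n : ℝ) ^ d := by
      field_simp
    rw [e, abs_mul, abs_of_pos hnd]
    exact mul_le_mul_of_nonneg_right h.le hnd.le
  set A : Finset (Bond d) := bonds (cube (0 : Site d) (n + R)) with hA
  have hAne : A.Nonempty := by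
    refine ⟨((0 : Site d), (⟨0, hd⟩ : Fin d)), ?_⟩
    rw [hA, mem_bonds, mem_cube, mem_cube]
    have hnZ : (2 : ℤ) ≤ ((n + R : ℕ) : ℤ) := by exact_mod_cast (by omega : 2 ≤ n + R)
    constructor
    · intro i
      show (0 : ℤ) ≤ 0 ∧ (0 : ℤ) < 0 + ((n + R : ℕ) : ℤ)
      exact ⟨le_rfl, by linarith⟩
    · intro i
      rw [tip_apply]
      show (0 : ℤ) ≤ 0 + (if i = _ then 1 else 0) ∧ (0 : ℤ) + (if i = _ then 1 else 0) < 0 + ((n + R : ℕ) : ℤ)
      split_ifs
      · exact ⟨by norm_num, by linarith⟩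
      · exact ⟨by norm_num, by linarith⟩
  have hAcard : (A.card : ℝ) ≤ d * 2 ^ d * (n : ℝ) ^ d := by
    have h1 := card_bonds_le (0 : Site d) (n + R)
    have h2 : (A.card : ℝ) ≤ d * ((n : ℝ) + R) ^ d := by exact_mod_cast h1
    have h3 : ((n : ℝ) + R) ^ d ≤ (2 * n) ^ d := by
      have : (R : ℝ) ≤ n := by exact_mod_cast hnR
      exact pow_le_pow_left₀ (by positivity) (by linarith) d
    rw [mul_pow] at h3
    calc (A.card : ℝ) ≤ d * ((n : ℝ) + R) ^ d := h2
      _ ≤ d * (2 ^ d * (n : ℝ) ^ d) := mul_le_mul_of_nonneg_left h3 hd0.le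
      _ = _ := by ring
  -- the function
  have hf : ∀ X : Bond d → S, Mx R G X 0 n = Mx R G (rs s0 A X) 0 n := by
    intro X
    refine Mx_congr hG.loc fun e he => ?_
    simp only [rs]
    rw [if_pos he]
  have hfm : Measurable[⨆ x : A, mm (S := S) (x : Bond d)] fun X : Bond d → S => Mx R G X 0 n := by
    have e : (fun X : Bond d → S => Mx R G X 0 n) = (fun X => Mx R G X 0 n) ∘ rs s0 A := by
      funext X
      exact hf X
    rw [e]
    exact (Mx_meas hG 0 n).comp (rs_meas s0 A)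
  have hgm : ∀ y ∈ A, Measurable[⨆ x : (A.erase y : Finset (Bond d)), mm (S := S) (x : Bond d)]
      fun X : Bond d → S => Mx R G (rs s0 (A.erase y) X) 0 n := fun y _ =>
    (Mx_meas hG 0 n).comp (rs_meas s0 (A.erase y))
  have hfg : ∀ y ∈ A, ∀ X : Bond d → S,
      |Mx R G X 0 n - Mx R G (rs s0 (A.erase y) X) 0 n| ≤ B := by
    intro y _ X
    have h1 : ∀ e, e ≠ y → rs s0 A X e = rs s0 (A.erase y) X e := by
      intro e he
      simp only [rs, mem_erase, ne_eq, he, not_false_eq_true, true_and]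
    rw [hf X, abs_le]
    have h2 := Mx_diff hG.loc hC h1 0 n
    have h3 := Mx_diff hG.loc hC (fun e he => (h1 e he).symm) 0 n
    constructor <;> linarith
  have hm : ∀ e : Bond d, mm (S := S) e ≤ MeasurableSpace.pi := fun e =>
    (measurable_pi_apply e).comap_le
  have hr : 0 ≤ ε / 2 * (n : ℝ) ^ d := by positivity
  have k1 := Pool.Agent.T2H99.AW.mcdiarmid (PX d μ) mm hm (ind μ) A (fun X => Mx R G X 0 n)
    (fun y X => Mx R G (rs s0 (A.erase y) X) 0 n) (C * (n : ℝ) ^ d) B hfm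
    (fun X => Mx_bound hC X 0 n) hgm (fun y X => Mx_bound hC _ 0 n) hB0 hfg hAne (ε / 2 * (n : ℝ) ^ d) hr
  have k2 := Pool.Agent.T2H99.AW.mcdiarmid (PX d μ) mm hm (ind μ) A (fun X => -Mx R G X 0 n)
    (fun y X => -Mx R G (rs s0 (A.erase y) X) 0 n) (C * (n : ℝ) ^ d) B hfm.neg
    (fun X => by rw [abs_neg]; exact Mx_bound hC X 0 n) (fun y hy => (hgm y hy).neg)
    (fun y X => by rw [abs_neg]; exact Mx_bound hC _ 0 n) hB0 (fun y hy X => by
      rw [neg_sub_neg, abs_sub_comm]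
      exact hfg y hy X) hAne (ε / 2 * (n : ℝ) ^ d) hr
  rw [integral_neg] at k2
  have hexp : Real.exp (-(ε / 2 * (n : ℝ) ^ d) ^ 2 / (8 * B ^ 2 * A.card)) ≤
      Real.exp (-((ε / 2) ^ 2 / (8 * B ^ 2 * (d * 2 ^ d)) * (n : ℝ) ^ d)) := by
    refine Real.exp_le_exp.2 ?_
    rw [neg_div, neg_le_neg_iff]
    have hApos : (0 : ℝ) < A.card := by exact_mod_cast hAne.card_pos
    exact arith hB0 (by positivity) hnd hApos hAcard
  have hsub : {X : Bond d → S | ε * (n : ℝ) ^ d ≤ |Mx R G X 0 n - (n : ℝ) ^ d * gl μ R G|} ⊆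
      {X | Mx R G X 0 n ≤ (∫ X, Mx R G X 0 n ∂(PX d μ)) - ε / 2 * (n : ℝ) ^ d} ∪
      {X | -Mx R G X 0 n ≤ -(∫ X, Mx R G X 0 n ∂(PX d μ)) - ε / 2 * (n : ℝ) ^ d} := by
    intro X hX
    have hX' : ε * (n : ℝ) ^ d ≤ |Mx R G X 0 n - (n : ℝ) ^ d * gl μ R G| := hX
    have h5 := abs_le.1 hmean
    unfold am at h5
    rcases abs_cases (Mx R G X 0 n - (n : ℝ) ^ d * gl μ R G) with ⟨h6, -⟩ | ⟨h6, -⟩
    · right
      show -Mx R G X 0 n ≤ _
      rw [h6] at hX'
      linarith [h5.1, h5.2]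
    · left
      show Mx R G X 0 n ≤ _
      rw [h6] at hX'
      linarith [h5.1, h5.2]
  have h7 := (measureReal_mono (μ := PX d μ) hsub).trans (measureReal_union_le _ _)
  linarith [k1.trans hexp, k2.trans hexp]

end Pool.Agent.Zk69.SB.X1
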