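import Pool.Agent.Zk83.SB.Stm

/-!
Local approximation: functions of countably many coordinates are almost functions of finitely many.
-/

set_option autoImplicit false

open MeasureTheory ProbabilityTheory Filter Topology

namespace Pool.Agent.Zk69.SB

/-- the coordinates with code less than `n` -/
def Low (ι : Type) [Encodable ι] (n : ℕ) : Set ι := {i | Encodable.encode i < n}

theorem low_finite (ι : Type) [Encodable ι] (n : ℕ) : (Low ι n).Finite := by
  refine Set.Finite.of_finite_image ((Set.finite_Iio n).subset ?_) Encodable.encode_injective.injOn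
  rintro _ ⟨i, hi, rfl⟩
  exact hi

/-- the filtration of the coordinates -/
def fil (ι : Type) [Encodable ι] : Filtration ℕ (MeasurableSpace.pi : MeasurableSpace (ι → ℝ)) where
  seq n := ⨆ i ∈ Low ι n, MeasurableSpace.comap (fun x : ι → ℝ => x i) inferInstance
  mono' := fun m n hmn => by
    refine iSup₂_le fun i hi => ?_
    exact le_iSup₂ (f := fun (i : ι) (_ : i ∈ Low ι n) =>
      MeasurableSpace.comap (fun x : ι → ℝ => x i) inferInstance) i (lt_of_lt_of_le hi hmn)
  le' := fun n => iSup₂_le fun i _ => (measurable_pi_apply i).comap_le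

theorem iSup_fil (ι : Type) [Encodable ι] :
    (⨆ n, (fil ι) n) = (MeasurableSpace.pi : MeasurableSpace (ι → ℝ)) := by
  refine le_antisymm (iSup_le fun n => (fil ι).le n) ?_
  refine iSup_le fun i => ?_
  refine le_trans ?_ (le_iSup (fun n => (fil ι) n) (Encodable.encode i + 1))
  exact le_iSup₂ (f := fun (j : ι) (_ : j ∈ Low ι (Encodable.encode i + 1)) =>
    MeasurableSpace.comap (fun x : ι → ℝ => x j) inferInstance) i (Nat.lt_succ_self _)

/-- a set of the filtration depends on finitely many coordinates -/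
theorem fil_mem {ι : Type} [Encodable ι] {n : ℕ} {x y : ι → ℝ} (h : ∀ i ∈ Low ι n, x i = y i)
    {s : Set (ι → ℝ)} (hs : MeasurableSet[(fil ι) n] s) : x ∈ s ↔ y ∈ s := by
  let m : MeasurableSpace (ι → ℝ) :=
    { MeasurableSet' := fun s => (x ∈ s ↔ y ∈ s)
      measurableSet_empty := Iff.rfl
      measurableSet_compl := fun s hs => not_congr hs
      measurableSet_iUnion := fun f hf => by
        simp only [Set.mem_iUnion]
        exact exists_congr hf }
  have hle : (fil ι) n ≤ m := by
    refine iSup₂_le fun i hi => ?_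
    rintro _ ⟨t, _, rfl⟩
    change x i ∈ t ↔ y i ∈ t
    rw [h i hi]
  exact hle s hs

theorem fil_eq {ι : Type} [Encodable ι] {n : ℕ} {x y : ι → ℝ} (h : ∀ i ∈ Low ι n, x i = y i)
    {g : (ι → ℝ) → ℝ} (hg : StronglyMeasurable[(fil ι) n] g) : g x = g y := by
  have h1 : MeasurableSet[(fil ι) n] (g ⁻¹' {g y}) := hg.measurable (measurableSet_singleton _)
  exact (fil_mem h h1).2 rfl

theorem t_B : Pool.Agent.Zk83.SB.StB := by
  intro ι _ P _ f hf hf1 ε hε
  have := Encodable.ofCountable ι
  have hfm : StronglyMeasurable[⨆ n, (fil ι) n] f := by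
    rw [iSup_fil]
    exact hf.stronglyMeasurable
  have hfi : Integrable f P := by
    refine Integrable.of_bound hf.aestronglyMeasurable 1 (Eventually.of_forall fun x => ?_)
    rw [Real.norm_eq_abs, abs_of_nonneg (hf1 x).1]
    exact (hf1 x).2
  have hlim := hfi.tendsto_eLpNorm_condExp (ℱ := fil ι) hfm
  have hε' : (0 : ENNReal) < ENNReal.ofReal (ε / 2) := ENNReal.ofReal_pos.2 (half_pos hε)
  obtain ⟨n, hn⟩ := ((tendsto_order.1 hlim).2 _ hε').exists
  set h : (ι → ℝ) → ℝ := P[f|(fil ι) n] with hh
  have hhm : StronglyMeasurable[(fil ι) n] h := stronglyMeasurable_condExp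
  have hhi : Integrable h P := integrable_condExp
  have hd : Integrable (fun x => |f x - h x|) P := (hfi.sub hhi).abs
  have hsmall : ∫ x, |f x - h x| ∂P ≤ ε / 2 := by
    have h1 : eLpNorm (h - f) 1 P = ENNReal.ofReal (∫ x, |f x - h x| ∂P) := by
      rw [eLpNorm_one_eq_lintegral_enorm, ofReal_integral_eq_lintegral_ofReal hd
        (Eventually.of_forall fun x => abs_nonneg _)]
      refine lintegral_congr fun x => ?_
      rw [Pi.sub_apply, ← ofReal_norm, Real.norm_eq_abs, abs_sub_comm]
    rw [h1] at hn
    exact (ENNReal.ofReal_lt_ofReal_iff (half_pos hε)).1 hn |>.le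
  refine ⟨(low_finite ι n).toFinset, fun T hT hTF => ?_⟩
  have hhT : ∀ x, h (T x) = h x := fun x => fil_eq (fun i hi => hTF x i
    ((low_finite ι n).mem_toFinset.2 hi)) hhm
  have hdT : Integrable (fun x => |f (T x) - h (T x)|) P := hT.integrable_comp_of_integrable hd
  have hTi : ∫ x, |f (T x) - h (T x)| ∂P = ∫ x, |f x - h x| ∂P := by
    have h2 := integral_map (μ := P) hT.measurable.aemeasurable
      (f := fun x => |f x - h x|) (by rw [hT.map_eq]; exact hd.aestronglyMeasurable)
    rw [hT.map_eq] at h2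
    exact h2.symm
  calc ∫ x, |f (T x) - f x| ∂P ≤ ∫ x, (|f (T x) - h (T x)| + |f x - h x|) ∂P := by
        refine integral_mono_of_nonneg (Eventually.of_forall fun x => abs_nonneg _) (hdT.add hd)
          (Eventually.of_forall fun x => ?_)
        have h3 := abs_sub_le (f (T x)) (h (T x)) (f x)
        rw [hhT x, abs_sub_comm (h x) (f x)] at h3
        simp only [hhT x]
        exact h3
    _ = ∫ x, |f (T x) - h (T x)| ∂P + ∫ x, |f x - h x| ∂P := integral_add hdT hd
    _ ≤ ε := by rw [hTi]; linarith

end Pool.Agent.Zk69.SB
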