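import Pool.Agent.Zk83.SB.Stm

/-!
A law of spin configurations with the symmetry `ν (σ = 1 on W) = ν (σ = -1 on W)` is invariant under the flip.
-/

set_option autoImplicit false

open MeasureTheory ProbabilityTheory Filter Topology

namespace Pool.Agent.Zk69.SB

section

variable {S : Type}

open Classical in
/-- the signs -/
noncomputable def sgn (σ : S → ℝ) : S → Bool := fun x => decide (σ x = 1)

/-- the configuration with given signs -/
def conf (b : S → Bool) : S → ℝ := fun x => if b x then 1 else -1

theorem measurable_sgn : Measurable (sgn : (S → ℝ) → (S → Bool)) := by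
  refine measurable_pi_lambda _ fun x => measurable_to_bool ?_
  have h : (fun σ : S → ℝ => sgn σ x) ⁻¹' {true} = (fun σ : S → ℝ => σ x) ⁻¹' {1} := by
    ext σ
    simp [sgn]
  rw [h]
  exact measurable_pi_apply x (measurableSet_singleton _)

theorem measurable_conf : Measurable (conf : (S → Bool) → (S → ℝ)) := by
  refine measurable_pi_lambda _ fun x => ?_
  have h : (fun b : S → Bool => conf b x) = (fun c : Bool => if c then (1 : ℝ) else -1) ∘ fun b => b x := rfl
  rw [h]
  exact (measurable_of_finite _).comp (measurable_pi_apply x)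

theorem conf_sgn {σ : S → ℝ} (h : ∀ x, σ x = 1 ∨ σ x = -1) : conf (sgn σ) = σ := by
  funext x
  unfold conf sgn
  rcases h x with h1 | h1
  · simp [h1]
  · have : (-1 : ℝ) ≠ 1 := by norm_num
    simp [h1, this]

theorem map_back {μ : Measure (S → ℝ)} (h : ∀ᵐ σ ∂μ, ∀ x, σ x = 1 ∨ σ x = -1) :
    (μ.map sgn).map conf = μ := by
  rw [Measure.map_map measurable_conf measurable_sgn]
  have h1 : μ.map (conf ∘ sgn) = μ.map id := by
    refine Measure.map_congr ?_
    filter_upwards [h] with σ hσ
    exact conf_sgn hσ
  rw [h1, Measure.map_id]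

/-- the sets of configurations with `b = true` on a finite set -/
def cyl (S : Type) : Set (Set (S → Bool)) := Set.range fun W : Finset S => {b | ∀ x ∈ W, b x = true}

theorem cyl_pi : IsPiSystem (cyl S) := by
  classical
  rintro _ ⟨W, rfl⟩ _ ⟨W', rfl⟩ _
  refine ⟨W ∪ W', ?_⟩
  ext b
  simp only [Set.mem_ofPred_eq, Set.mem_inter_iff, Finset.mem_union]
  exact ⟨fun h => ⟨fun x hx => h x (Or.inl hx), fun x hx => h x (Or.inr hx)⟩,
    fun h x hx => hx.elim (h.1 x) (h.2 x)⟩

theorem cyl_gen : (MeasurableSpace.pi : MeasurableSpace (S → Bool)) = MeasurableSpace.generateFrom (cyl S) := by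
  refine le_antisymm (iSup_le fun x => ?_) (MeasurableSpace.generateFrom_le ?_)
  · have h : Measurable[MeasurableSpace.generateFrom (cyl S)] fun b : S → Bool => b x := by
      refine @measurable_to_bool _ (MeasurableSpace.generateFrom (cyl S)) _ ?_
      refine MeasurableSpace.measurableSet_generateFrom ⟨{x}, ?_⟩
      ext b
      simp
    exact h.comap_le
  · rintro _ ⟨W, rfl⟩
    have h : {b : S → Bool | ∀ x ∈ W, b x = true} = ⋂ x ∈ W, (fun b => b x) ⁻¹' {true} := by
      ext b
      simp
    beta_reduce
    rw [h]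
    exact Finset.measurableSet_biInter W fun x _ => measurable_pi_apply x (measurableSet_singleton _)

end

theorem t_C : Pool.Agent.Zk83.SB.StC := by
  intro S _ ν _ hpm hW
  have hneg : Measurable fun σ : S → ℝ => -σ :=
    measurable_pi_lambda _ fun x => (measurable_pi_apply x).neg
  have hm : MeasurableSet {σ : S → ℝ | ∀ x, σ x = 1 ∨ σ x = -1} := by
    have h : {σ : S → ℝ | ∀ x, σ x = 1 ∨ σ x = -1} =
        ⋂ x, ((fun σ : S → ℝ => σ x) ⁻¹' {1} ∪ (fun σ : S → ℝ => σ x) ⁻¹' {-1}) := by
      ext σ
      simp
    rw [h]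
    exact MeasurableSet.iInter fun x => (measurable_pi_apply x (measurableSet_singleton _)).union
      (measurable_pi_apply x (measurableSet_singleton _))
  have hpm' : ∀ᵐ σ ∂(ν.map fun σ => -σ), ∀ x, σ x = 1 ∨ σ x = -1 := by
    rw [ae_map_iff hneg.aemeasurable hm]
    filter_upwards [hpm] with σ hσ x
    rcases hσ x with h | h
    · right
      rw [Pi.neg_apply, h]
    · left
      rw [Pi.neg_apply, h, neg_neg]
  have := Measure.isProbabilityMeasure_map (μ := ν) hneg.aemeasurable
  have h1 : (ν.map fun σ => -σ).map sgn = ν.map sgn := by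
    have i1 := Measure.isProbabilityMeasure_map (μ := ν) measurable_sgn.aemeasurable
    have i2 := Measure.isProbabilityMeasure_map (μ := ν.map fun σ => -σ) measurable_sgn.aemeasurable
    refine ext_of_generate_finite (cyl S) cyl_gen cyl_pi ?_ (by rw [measure_univ, measure_univ])
    rintro _ ⟨W, rfl⟩
    have hs : MeasurableSet {b : S → Bool | ∀ x ∈ W, b x = true} := by
      rw [cyl_gen]
      exact MeasurableSpace.measurableSet_generateFrom ⟨W, rfl⟩
    beta_reduce
    rw [Measure.map_apply measurable_sgn hs, Measure.map_apply hneg (measurable_sgn hs),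
      Measure.map_apply measurable_sgn hs]
    have e1 : sgn ⁻¹' {b : S → Bool | ∀ x ∈ W, b x = true} = {σ : S → ℝ | ∀ x ∈ W, σ x = 1} := by
      ext σ
      simp [sgn]
    have e2 : (fun σ : S → ℝ => -σ) ⁻¹' {σ : S → ℝ | ∀ x ∈ W, σ x = 1} =
        {σ : S → ℝ | ∀ x ∈ W, σ x = -1} := by
      ext σ
      simp only [Set.mem_preimage, Set.mem_ofPred_eq, Pi.neg_apply]
      refine forall₂_congr fun x _ => ?_
      constructor
      · intro h
        linarith
      · intro h
        linarith
    rw [e1, e2, hW W]
  rw [← map_back hpm', h1, map_back hpm]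

end Pool.Agent.Zk69.SB
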