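import Pool.Agent.Zk83.SB.Stm5

/-!
# Massart's lemma
-/

set_option autoImplicit false

open MeasureTheory ProbabilityTheory Filter Topology

namespace Pool.Agent.Zk69.SB

open Pool.Agent.Zk83.SB

lemma sum_signs {ι : Type} [Fintype ι] [DecidableEq ι] (v : ι → ℝ) (t : ℝ) :
    ∑ U : ι → Bool, Real.exp (t * ∑ i, (if U i then (-1 : ℝ) else 1) * v i) =
      ∏ i, (2 * Real.cosh (t * v i)) := by
  have h1 : ∀ U : ι → Bool, Real.exp (t * ∑ i, (if U i then (-1 : ℝ) else 1) * v i) =
      ∏ i, Real.exp (t * ((if U i then (-1 : ℝ) else 1) * v i)) := by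
    intro U
    rw [Finset.mul_sum, Real.exp_sum]
  simp only [h1]
  have h2 : ∀ i : ι, 2 * Real.cosh (t * v i) =
      ∑ b ∈ (Finset.univ : Finset Bool), Real.exp (t * ((if b then (-1 : ℝ) else 1) * v i)) := by
    intro i
    rw [Fintype.sum_bool, Real.cosh_eq]
    simp only [if_true, Bool.false_eq_true, if_false, one_mul, neg_mul, mul_neg]
    ring
  simp only [h2]
  rw [Finset.prod_univ_sum (fun _ : ι => (Finset.univ : Finset Bool))
    (fun i b => Real.exp (t * ((if b then (-1 : ℝ) else 1) * v i))), Fintype.piFinset_univ]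

theorem t_M : StM := by
  intro ι _ _ V hV hb t ht
  set N := Fintype.card ι with hN
  set M : ℝ := 2 ^ N with hM
  have hM0 : 0 < M := by positivity
  have hcard : ((Finset.univ : Finset (ι → Bool)).card : ℝ) = M := by
    rw [Finset.card_univ, Fintype.card_fun, Fintype.card_bool]
    push_cast
    rfl
  set S : (ι → Bool) → ℝ := fun U => V.sup' hV (fun v => ∑ i, (if U i then (-1 : ℝ) else 1) * v i) with hS
  have hVpos : (0 : ℝ) < V.card := by exact_mod_cast hV.card_pos
  -- Jensen
  have h1 : Real.exp (∑ U : ι → Bool, (1 / M) • (t * S U)) ≤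
      ∑ U : ι → Bool, (1 / M) • Real.exp (t * S U) :=
    convexOn_exp.map_sum_le (fun U _ => by positivity)
      (by rw [Finset.sum_const, nsmul_eq_mul, hcard]; field_simp) (fun U _ => Set.mem_univ _)
  have h2 : ∀ U : ι → Bool, Real.exp (t * S U) ≤
      ∑ v ∈ V, Real.exp (t * ∑ i, (if U i then (-1 : ℝ) else 1) * v i) := by
    intro U
    obtain ⟨v, hv, he⟩ := Finset.exists_mem_eq_sup' hV
      (fun v : ι → ℝ => ∑ i, (if U i then (-1 : ℝ) else 1) * v i)
    have h3 : S U = ∑ i, (if U i then (-1 : ℝ) else 1) * v i := he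
    rw [h3]
    exact Finset.single_le_sum (f := fun v : ι → ℝ =>
      Real.exp (t * ∑ i, (if U i then (-1 : ℝ) else 1) * v i)) (fun _ _ => (Real.exp_pos _).le) hv
  have h3 : ∑ U : ι → Bool, Real.exp (t * S U) ≤ M * (V.card * Real.exp (t ^ 2 * N / 2)) := by
    calc ∑ U : ι → Bool, Real.exp (t * S U)
        ≤ ∑ U : ι → Bool, ∑ v ∈ V, Real.exp (t * ∑ i, (if U i then (-1 : ℝ) else 1) * v i) :=
          Finset.sum_le_sum fun U _ => h2 U
      _ = ∑ v ∈ V, ∑ U : ι → Bool, Real.exp (t * ∑ i, (if U i then (-1 : ℝ) else 1) * v i) :=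
          Finset.sum_comm
      _ = ∑ v ∈ V, ∏ i, (2 * Real.cosh (t * v i)) := by simp only [sum_signs]
      _ ≤ ∑ v ∈ V, M * Real.exp (t ^ 2 * N / 2) := by
          refine Finset.sum_le_sum fun v hv => ?_
          rw [Finset.prod_mul_distrib, Finset.prod_const, Finset.card_univ]
          refine mul_le_mul_of_nonneg_left ?_ hM0.le
          calc ∏ i, Real.cosh (t * v i) ≤ ∏ _i : ι, Real.exp (t ^ 2 / 2) := by
                refine Finset.prod_le_prod (fun i _ => (Real.cosh_pos _).le) fun i _ => ?_
                refine (Real.cosh_le_exp_half_sq _).trans (Real.exp_le_exp.2 ?_)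
                have hvi := hb v hv i
                have : (t * v i) ^ 2 ≤ t ^ 2 := by
                  rw [mul_pow]
                  have h5 : v i ^ 2 ≤ 1 := by
                    rw [← sq_abs]
                    exact pow_le_one₀ (abs_nonneg _) hvi
                  nlinarith [sq_nonneg t]
                linarith
            _ = Real.exp (t ^ 2 * N / 2) := by
                rw [Finset.prod_const, Finset.card_univ, ← Real.exp_nat_mul]
                congr 1
                ring
      _ = M * (V.card * Real.exp (t ^ 2 * N / 2)) := by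
          rw [Finset.sum_const, nsmul_eq_mul]
          ring
  have h4 : Real.exp (t * ((∑ U : ι → Bool, S U) / M)) ≤ V.card * Real.exp (t ^ 2 * N / 2) := by
    have e1 : ∑ U : ι → Bool, (1 / M) • (t * S U) = t * ((∑ U : ι → Bool, S U) / M) := by
      simp only [smul_eq_mul]
      rw [← Finset.mul_sum, ← Finset.mul_sum]
      ring
    have e2 : ∑ U : ι → Bool, (1 / M) • Real.exp (t * S U) = (1 / M) * ∑ U : ι → Bool, Real.exp (t * S U) := by
      simp only [smul_eq_mul]
      rw [← Finset.mul_sum]
    rw [e1, e2] at h1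
    refine h1.trans ?_
    calc (1 / M) * ∑ U : ι → Bool, Real.exp (t * S U)
        ≤ (1 / M) * (M * (V.card * Real.exp (t ^ 2 * N / 2))) :=
          mul_le_mul_of_nonneg_left h3 (by positivity)
      _ = V.card * Real.exp (t ^ 2 * N / 2) := by
          field_simp
  have h5 := (Real.le_log_iff_exp_le (by positivity)).2 h4
  rw [Real.log_mul (by positivity) (by positivity), Real.log_exp] at h5
  have h6 : (∑ U : ι → Bool, S U) / M ≤ Real.log V.card / t + t * N / 2 := by
    rw [← mul_le_mul_iff_of_pos_left ht]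
    calc t * ((∑ U : ι → Bool, S U) / M) ≤ Real.log V.card + t ^ 2 * N / 2 := h5
      _ = t * (Real.log V.card / t + t * N / 2) := by
          field_simp
  rw [div_le_iff₀ hM0] at h6
  linarith

end Pool.Agent.Zk69.SB
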