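import Pool.Agent.Zk83.SB.Stm6
import Pool.Agent.Zk69.SB.M

/-!
# Hoeffding's inequality for signs, with a union bound
-/

set_option autoImplicit false

open MeasureTheory ProbabilityTheory Filter Topology

namespace Pool.Agent.Zk69.SB

open Pool.Agent.Zk83.SB

lemma hoeff_one {ι : Type} [Fintype ι] [DecidableEq ι] (v : ι → ℝ) {M a t : ℝ} (ht : 0 ≤ t)
    (hv : ∀ i, |v i| ≤ M) :
    ((Finset.univ.filter fun U : ι → Bool =>
      a ≤ |∑ i, (if U i then (-1 : ℝ) else 1) * v i|).card : ℝ) ≤
      2 ^ Fintype.card ι * (2 * Real.exp (-(t * a) + t ^ 2 * Fintype.card ι * M ^ 2 / 2)) := by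
  set S : (ι → Bool) → ℝ := fun U => ∑ i, (if U i then (-1 : ℝ) else 1) * v i with hS
  have h1 : ((Finset.univ.filter fun U : ι → Bool => a ≤ |S U|).card : ℝ) =
      ∑ U : ι → Bool, if a ≤ |S U| then (1 : ℝ) else 0 := by
    rw [Finset.card_filter]
    push_cast
    rfl
  have h2 : ∀ U : ι → Bool, (if a ≤ |S U| then (1 : ℝ) else 0) ≤
      Real.exp (-(t * a)) * Real.exp (t * S U) + Real.exp (-(t * a)) * Real.exp (-t * S U) := by
    intro U
    rw [← Real.exp_add, ← Real.exp_add]
    split_ifs with h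
    · rcases abs_cases (S U) with h3 | h3
      · have h4 : 0 ≤ -(t * a) + t * S U := by
          rw [h3.1] at h
          nlinarith
        have h5 := Real.one_le_exp h4
        have h6 := (Real.exp_pos (-(t * a) + -t * S U)).le
        linarith
      · have h4 : 0 ≤ -(t * a) + -t * S U := by
          rw [h3.1] at h
          nlinarith
        have h5 := Real.one_le_exp h4
        have h6 := (Real.exp_pos (-(t * a) + t * S U)).le
        linarith
    · positivity
  have h3 : ∀ s : ℝ, s ^ 2 = t ^ 2 → ∑ U : ι → Bool, Real.exp (s * S U) ≤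
      2 ^ Fintype.card ι * Real.exp (t ^ 2 * Fintype.card ι * M ^ 2 / 2) := by
    intro s hs
    rw [sum_signs, Finset.prod_mul_distrib, Finset.prod_const, Finset.card_univ]
    refine mul_le_mul_of_nonneg_left ?_ (by positivity)
    calc ∏ i, Real.cosh (s * v i) ≤ ∏ _i : ι, Real.exp (t ^ 2 * M ^ 2 / 2) := by
          refine Finset.prod_le_prod (fun i _ => (Real.cosh_pos _).le) fun i _ => ?_
          refine (Real.cosh_le_exp_half_sq _).trans (Real.exp_le_exp.2 ?_)
          have h4 : v i ^ 2 ≤ M ^ 2 := by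
            rw [← sq_abs (v i)]
            exact pow_le_pow_left₀ (abs_nonneg _) (hv i) 2
          have h5 : (s * v i) ^ 2 ≤ t ^ 2 * M ^ 2 := by
            rw [mul_pow, hs]
            exact mul_le_mul_of_nonneg_left h4 (sq_nonneg t)
          linarith
      _ = Real.exp (t ^ 2 * Fintype.card ι * M ^ 2 / 2) := by
          rw [Finset.prod_const, Finset.card_univ, ← Real.exp_nat_mul]
          congr 1
          ring
  have he := (Real.exp_pos (-(t * a))).le
  calc ((Finset.univ.filter fun U : ι → Bool => a ≤ |S U|).card : ℝ)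
      = ∑ U : ι → Bool, if a ≤ |S U| then (1 : ℝ) else 0 := h1
    _ ≤ ∑ U : ι → Bool, (Real.exp (-(t * a)) * Real.exp (t * S U) +
          Real.exp (-(t * a)) * Real.exp (-t * S U)) := Finset.sum_le_sum fun U _ => h2 U
    _ = Real.exp (-(t * a)) * ∑ U : ι → Bool, Real.exp (t * S U) +
          Real.exp (-(t * a)) * ∑ U : ι → Bool, Real.exp (-t * S U) := by
        rw [Finset.sum_add_distrib, Finset.mul_sum, Finset.mul_sum]
    _ ≤ Real.exp (-(t * a)) * (2 ^ Fintype.card ι * Real.exp (t ^ 2 * Fintype.card ι * M ^ 2 / 2)) +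
          Real.exp (-(t * a)) *
            (2 ^ Fintype.card ι * Real.exp (t ^ 2 * Fintype.card ι * M ^ 2 / 2)) :=
        add_le_add (mul_le_mul_of_nonneg_left (h3 t rfl) he)
          (mul_le_mul_of_nonneg_left (h3 (-t) (by ring)) he)
    _ = 2 ^ Fintype.card ι * (2 * Real.exp (-(t * a) + t ^ 2 * Fintype.card ι * M ^ 2 / 2)) := by
        rw [Real.exp_add]
        ring

theorem t_H : StH := by
  intro ι _ _ V M a hM ha hV
  have h1 : (Finset.univ.filter fun U : ι → Bool =>
      ∃ v ∈ V, a ≤ |∑ i, (if U i then (-1 : ℝ) else 1) * v i|) ⊆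
      V.biUnion fun v => Finset.univ.filter fun U : ι → Bool =>
        a ≤ |∑ i, (if U i then (-1 : ℝ) else 1) * v i| := by
    intro U hU
    rw [Finset.mem_filter] at hU
    obtain ⟨-, v, hv, h⟩ := hU
    exact Finset.mem_biUnion.2 ⟨v, hv, Finset.mem_filter.2 ⟨Finset.mem_univ _, h⟩⟩
  have key : ∀ v ∈ V, ((Finset.univ.filter fun U : ι → Bool =>
      a ≤ |∑ i, (if U i then (-1 : ℝ) else 1) * v i|).card : ℝ) ≤
      2 ^ Fintype.card ι * (2 * Real.exp (-(a ^ 2 / (2 * Fintype.card ι * M ^ 2)))) := by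
    intro v hv
    rcases Nat.eq_zero_or_pos (Fintype.card ι) with h0 | h0
    · have h2 := hoeff_one v (M := M) (a := a) le_rfl (hV v hv)
      simpa [h0] using h2
    · have hN : (0 : ℝ) < Fintype.card ι := by exact_mod_cast h0
      have h2 := hoeff_one v (M := M) (a := a) (t := a / (Fintype.card ι * M ^ 2)) (by positivity)
        (hV v hv)
      refine h2.trans (le_of_eq ?_)
      congr 3
      field_simp
      ring
  calc ((Finset.univ.filter fun U : ι → Bool =>
      ∃ v ∈ V, a ≤ |∑ i, (if U i then (-1 : ℝ) else 1) * v i|).card : ℝ)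
      ≤ ((V.biUnion fun v => Finset.univ.filter fun U : ι → Bool =>
        a ≤ |∑ i, (if U i then (-1 : ℝ) else 1) * v i|).card : ℝ) := by
        exact_mod_cast Finset.card_le_card h1
    _ ≤ ∑ v ∈ V, ((Finset.univ.filter fun U : ι → Bool =>
        a ≤ |∑ i, (if U i then (-1 : ℝ) else 1) * v i|).card : ℝ) := by
        exact_mod_cast Finset.card_biUnion_le
    _ ≤ ∑ _v ∈ V, 2 ^ Fintype.card ι * (2 * Real.exp (-(a ^ 2 / (2 * Fintype.card ι * M ^ 2)))) :=
        Finset.sum_le_sum key
    _ = _ := by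
        rw [Finset.sum_const, nsmul_eq_mul]
        ring

end Pool.Agent.Zk69.SB
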