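import Pool.Agent.Zk83.SB.Stm5

/-!
# Ground states are determined by their values on the boundary
-/

set_option autoImplicit false

open MeasureTheory ProbabilityTheory Filter Topology

namespace Pool.Agent.Zk69.SB

open Pool.Agent.Zk83.SB

variable {d : ℕ}

lemma fin_bonds (A : Finset (Site d)) : {e : Bond d | e.1 ∈ A ∨ tip e ∈ A}.Finite := by
  have h1 : {e : Bond d | e.1 ∈ A}.Finite := by
    have : {e : Bond d | e.1 ∈ A} = (A : Set (Site d)) ×ˢ (Set.univ : Set (Fin d)) := by
      ext e
      simp
    rw [this]
    exact A.finite_toSet.prod Set.finite_univ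
  have h2 : {e : Bond d | tip e ∈ A}.Finite := by
    have : {e : Bond d | tip e ∈ A} ⊆
        (fun p : Site d × Fin d => ((p.1 - (Pi.single p.2 (1 : ℤ) : Fin d → ℤ), p.2) : Bond d)) ''
          ((A : Set (Site d)) ×ˢ (Set.univ : Set (Fin d))) := by
      intro e he
      refine ⟨(tip e, e.2), ⟨he, Set.mem_univ _⟩, ?_⟩
      simp [tip]
    exact (((A.finite_toSet.prod Set.finite_univ)).image _).subset this
  exact h1.union h2

lemma agree (J : Bond d → ℝ) (A B : Finset (Site d))
    (hB : ∀ e : Bond d, (e.1 ∈ A → tip e ∉ A → tip e ∈ B) ∧ (tip e ∈ A → e.1 ∉ A → e.1 ∈ B))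
    {σ τ : Site d → ℝ} (hσ : IsGroundState J σ) (hτ : IsGroundState J τ)
    (hb : ∀ x ∈ B, σ x = τ x) : ∀ x ∈ A, σ x = τ x := by
  classical
  by_contra hne
  push Not at hne
  obtain ⟨x0, hx0, hx⟩ := hne
  set ρ : Site d → ℝ := fun x => if x ∈ A then τ x else σ x with hρ
  set ρ' : Site d → ℝ := fun x => if x ∈ A then σ x else τ x with hρ'
  have k1 := hσ.2 ρ (fun x => by
      simp only [hρ]
      split_ifs
      · exact hτ.1 x
      · exact hσ.1 x)
    (A.finite_toSet.subset fun x hx => by
      by_contra h
      exact hx (if_neg h))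
    (fun h => hx (by
      have := congrFun h x0
      simp only [hρ, if_pos hx0] at this
      exact this.symm))
  have k2 := hτ.2 ρ' (fun x => by
      simp only [hρ']
      split_ifs
      · exact hσ.1 x
      · exact hτ.1 x)
    (A.finite_toSet.subset fun x hx => by
      by_contra h
      exact hx (if_neg h))
    (fun h => hx (by
      have := congrFun h x0
      simp only [hρ', if_pos hx0] at this
      exact this))
  have f1 : (Function.support fun e : Bond d => J e * (σ e.1 * σ (tip e) - ρ e.1 * ρ (tip e))).Finite := by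
    refine (fin_bonds A).subset fun e he => ?_
    by_contra h
    simp only [Set.mem_ofPred_eq, not_or] at h
    apply he
    simp only [hρ, if_neg h.1, if_neg h.2, sub_self, mul_zero]
  have f2 : (Function.support fun e : Bond d => J e * (τ e.1 * τ (tip e) - ρ' e.1 * ρ' (tip e))).Finite := by
    refine (fin_bonds A).subset fun e he => ?_
    by_contra h
    simp only [Set.mem_ofPred_eq, not_or] at h
    apply he
    simp only [hρ', if_neg h.1, if_neg h.2, sub_self, mul_zero]
  have hsum := finsum_add_distrib f1 f2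
  have hz : ∀ e : Bond d, J e * (σ e.1 * σ (tip e) - ρ e.1 * ρ (tip e)) +
      J e * (τ e.1 * τ (tip e) - ρ' e.1 * ρ' (tip e)) = 0 := by
    intro e
    by_cases h1 : e.1 ∈ A <;> by_cases h2 : tip e ∈ A
    · simp only [hρ, hρ', if_pos h1, if_pos h2]
      ring
    · have := hb _ ((hB e).1 h1 h2)
      simp only [hρ, hρ', if_pos h1, if_neg h2, this]
      ring
    · have := hb _ ((hB e).2 h2 h1)
      simp only [hρ, hρ', if_neg h1, if_pos h2, this]
      ring
    · simp only [hρ, hρ', if_neg h1, if_neg h2]
      ring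
  simp only [hz, finsum_zero] at hsum
  linarith

theorem t_R : StR := by
  classical
  intro d J A B hB Y φ hφ
  have hch : ∀ y : φ '' GS J, ∃ σ, IsGroundState J σ ∧ φ σ = y := fun y => by
    obtain ⟨σ, h1, h2⟩ := y.2
    exact ⟨σ, h1, h2⟩
  choose s hs1 hs2 using hch
  set F : φ '' GS J → (B → Bool) := fun y b => decide (s y b = 1) with hF
  have hinj : Function.Injective F := by
    intro y y' h
    apply Subtype.ext
    rw [← hs2 y, ← hs2 y']
    refine hφ _ _ (agree J A B hB (hs1 y) (hs1 y') fun x hx => ?_)
    have h1 := congrFun h ⟨x, hx⟩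
    simp only [hF, decide_eq_decide] at h1
    rcases (hs1 y).1 x with h2 | h2 <;> rcases (hs1 y').1 x with h3 | h3
    · rw [h2, h3]
    · exfalso
      have := h1.1 h2
      rw [h3] at this
      norm_num at this
    · exfalso
      have := h1.2 h3
      rw [h2] at this
      norm_num at this
    · rw [h2, h3]
  have hfin : Finite (φ '' GS J) := Finite.of_injective F hinj
  refine ⟨hfin, ?_⟩
  have h1 := Nat.card_le_card_of_injective F hinj
  have h2 : Nat.card (B → Bool) = 2 ^ B.card := by
    rw [Nat.card_eq_fintype_card, Fintype.card_fun, Fintype.card_bool, Fintype.card_coe]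
  rw [h2] at h1
  exact h1

end Pool.Agent.Zk69.SB
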