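import Pool.Agent.Zk83.SB.Stm6
import Pool.Agent.Zk69.SB.R

/-!
# Ground states in a cube are determined by their values on the rim
-/

set_option autoImplicit false

open MeasureTheory ProbabilityTheory Filter Topology

namespace Pool.Agent.Zk69.SB

open Pool.Agent.Zk83.SB

variable {d : ℕ}

lemma agree2 (J : Bond d → ℝ) (A B : Finset (Site d))
    (hB : ∀ e : Bond d, (e.1 ∈ A → tip e ∉ A → tip e ∈ B) ∧ (tip e ∈ A → e.1 ∉ A → e.1 ∈ B))
    {σ τ : Site d → ℝ} (hσ : BoxGS A J σ) (hτ : BoxGS A J τ)
    (hb : ∀ x ∈ B, σ x = τ x) : ∀ x ∈ A, σ x = τ x := by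
  classical
  by_contra hne
  push Not at hne
  obtain ⟨x0, hx0, hx⟩ := hne
  set ρ : Site d → ℝ := fun x => if x ∈ A then τ x else σ x with hρ
  set ρ' : Site d → ℝ := fun x => if x ∈ A then σ x else τ x with hρ'
  have k1 := hσ.2 ρ (fun x => by
      simp only [hρ]
      split_ifs
      · exact hτ.1 x
      · exact hσ.1 x)
    (fun x hx => if_neg hx)
    (fun h => hx (by
      have := congrFun h x0
      simp only [hρ, if_pos hx0] at this
      exact this.symm))
  have k2 := hτ.2 ρ' (fun x => by
      simp only [hρ']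
      split_ifs
      · exact hσ.1 x
      · exact hτ.1 x)
    (fun x hx => if_neg hx)
    (fun h => hx (by
      have := congrFun h x0
      simp only [hρ', if_pos hx0] at this
      exact this))
  have f1 : (Function.support fun e : Bond d => J e * (σ e.1 * σ (tip e) - ρ e.1 * ρ (tip e))).Finite := by
    refine (fin_bonds A).subset fun e he => ?_
    by_contra h
    simp only [Set.mem_ofPred_eq, not_or] at h
    apply he
    simp only [hρ, if_neg h.1, if_neg h.2, sub_self, mul_zero]
  have f2 : (Function.support fun e : Bond d => J e * (τ e.1 * τ (tip e) - ρ' e.1 * ρ' (tip e))).Finite := by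
    refine (fin_bonds A).subset fun e he => ?_
    by_contra h
    simp only [Set.mem_ofPred_eq, not_or] at h
    apply he
    simp only [hρ', if_neg h.1, if_neg h.2, sub_self, mul_zero]
  have hsum := finsum_add_distrib f1 f2
  have hz : ∀ e : Bond d, J e * (σ e.1 * σ (tip e) - ρ e.1 * ρ (tip e)) +
      J e * (τ e.1 * τ (tip e) - ρ' e.1 * ρ' (tip e)) = 0 := by
    intro e
    by_cases h1 : e.1 ∈ A <;> by_cases h2 : tip e ∈ A
    · simp only [hρ, hρ', if_pos h1, if_pos h2]
      ring
    · have := hb _ ((hB e).1 h1 h2)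
      simp only [hρ, hρ', if_pos h1, if_neg h2, this]
      ring
    · have := hb _ ((hB e).2 h2 h1)
      simp only [hρ, hρ', if_neg h1, if_pos h2, this]
      ring
    · simp only [hρ, hρ', if_neg h1, if_neg h2]
      ring
  simp only [hz, finsum_zero] at hsum
  linarith

lemma mem_cube {n : ℕ} {x : Site d} : x ∈ cube d n ↔ ∀ j, 0 ≤ x j ∧ x j < n := by
  simp [cube]

lemma mem_rim {n : ℕ} {x : Site d} : x ∈ rim d n ↔ (∀ j, -1 ≤ x j ∧ x j < n + 1) ∧ x ∉ cube d n := by
  simp [rim]

lemma single_bd (i j : Fin d) : 0 ≤ (Pi.single i (1 : ℤ) : Fin d → ℤ) j ∧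
    (Pi.single i (1 : ℤ) : Fin d → ℤ) j ≤ 1 := by
  by_cases h : j = i
  · subst h; simp
  · rw [Pi.single_eq_of_ne h]
    norm_num

lemma rim_bd (n : ℕ) (e : Bond d) : (e.1 ∈ cube d n → tip e ∉ cube d n → tip e ∈ rim d n) ∧
    (tip e ∈ cube d n → e.1 ∉ cube d n → e.1 ∈ rim d n) := by
  constructor
  · intro h1 h2
    rw [mem_rim]
    refine ⟨fun j => ?_, h2⟩
    have h3 := (mem_cube.1 h1) j
    have h4 := single_bd e.2 j
    simp only [tip, Pi.add_apply]
    omega
  · intro h1 h2
    rw [mem_rim]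
    refine ⟨fun j => ?_, h2⟩
    have h3 := (mem_cube.1 h1) j
    have h4 := single_bd e.2 j
    simp only [tip, Pi.add_apply] at h3
    omega

theorem t_R2 : StR2 := by
  classical
  intro d n k J Y φ hφ
  set X : Set Y := φ '' {σ | ∀ a, BoxGS (cube d n) J (σ a)} with hX
  have hch : ∀ y : X, ∃ σ : Fin k → Site d → ℝ, (∀ a, BoxGS (cube d n) J (σ a)) ∧ φ σ = y :=
    fun y => by
      obtain ⟨σ, h1, h2⟩ := y.2
      exact ⟨σ, h1, h2⟩
  choose s hs1 hs2 using hch
  set F : X → (Fin k × rim d n → Bool) := fun y b => decide (s y b.1 b.2 = 1) with hF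
  have hinj : Function.Injective F := by
    intro y y' h
    apply Subtype.ext
    rw [← hs2 y, ← hs2 y']
    refine hφ _ _ fun a => agree2 J (cube d n) (rim d n) (rim_bd n) (hs1 y a) (hs1 y' a)
      fun x hx => ?_
    have h1 := congrFun h (a, ⟨x, hx⟩)
    simp only [hF, decide_eq_decide] at h1
    rcases (hs1 y a).1 x with h2 | h2 <;> rcases (hs1 y' a).1 x with h3 | h3
    · rw [h2, h3]
    · exfalso
      have := h1.1 h2
      rw [h3] at this
      norm_num at this
    · exfalso
      have := h1.2 h3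
      rw [h2] at this
      norm_num at this
    · rw [h2, h3]
  have hfin : Finite X := Finite.of_injective F hinj
  refine ⟨hfin, ?_⟩
  have h1 := Nat.card_le_card_of_injective F hinj
  have h2 : Nat.card (Fin k × rim d n → Bool) = 2 ^ (k * (rim d n).card) := by
    rw [Nat.card_eq_fintype_card, Fintype.card_fun, Fintype.card_bool, Fintype.card_prod,
      Fintype.card_fin, Fintype.card_coe]
  rw [h2] at h1
  exact h1

end Pool.Agent.Zk69.SB
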