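import Pool.Agent.Zk83.SB.Stm

/-!
Probability measures on a countable set cannot be separated for almost all sequences of coins.
-/

set_option autoImplicit false
set_option linter.deprecated false

open MeasureTheory ProbabilityTheory Filter Topology

namespace Pool.Agent.Zk69.SB

open Pool.Agent.Zk83.SB (coin)

theorem coin_pi (t : Finset ℕ) (V : ℕ → Bool) :
    coin {U | ∀ i ∈ t, U i = V i} = (2⁻¹ : ENNReal) ^ t.card := by
  have h : {U : ℕ → Bool | ∀ i ∈ t, U i = V i} = Set.pi (t : Set ℕ) (fun i => {V i}) := by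
    ext U
    simp [Set.mem_pi]
  rw [h]
  unfold coin
  rw [Measure.infinitePi_pi _ (fun i _ => measurableSet_singleton _)]
  have h1 : ∀ b : Bool, (PMF.bernoulli (1 / 2) (by norm_num)).toMeasure {b} = (2⁻¹ : ENNReal) := by
    intro b
    rw [PMF.toMeasure_apply_singleton _ _ (measurableSet_singleton _), PMF.bernoulli_apply]
    cases b
    · simp only [cond_false]
      have : (1 : NNReal) - 1 / 2 = 2⁻¹ := by
        rw [one_div]
        exact tsub_eq_of_eq_add (by norm_num)
      rw [this]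
      simp
    · simp
  rw [Finset.prod_congr rfl fun i _ => h1 (V i), Finset.prod_const]

theorem coin_null (I : Set ℕ) (hI : I.Infinite) (V : ℕ → Bool) : coin {U | ∀ i ∈ I, U i = V i} = 0 := by
  refine le_antisymm ?_ bot_le
  have h1 : Tendsto (fun k : ℕ => (2⁻¹ : ENNReal) ^ k) atTop (𝓝 0) :=
    ENNReal.tendsto_pow_atTop_nhds_zero_of_lt_one (ENNReal.inv_lt_one.2 (by norm_num))
  refine ge_of_tendsto' h1 fun k => ?_
  obtain ⟨t, ht, htc⟩ := hI.exists_subset_card_eq k
  rw [← htc, ← coin_pi t V]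
  exact measure_mono fun U hU i hi => hU i (ht hi)

section approx

variable {X : Type} [MeasurableSpace X] [MeasurableSingletonClass X] {G : Set X} (f : X → ℕ)

/-- the points of `G` with the code `n` -/
def At (G : Set X) (n : ℕ) : Set X := {x | x ∈ G ∧ f x = n}

/-- the points of `G` with the code less than `n` -/
def Be (G : Set X) (n : ℕ) : Set X := {x | x ∈ G ∧ f x < n}

variable {f}

theorem meas_at (hG : G.Countable) (n : ℕ) : MeasurableSet (At f G n) :=
  (hG.mono fun _ hx => hx.1).measurableSet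

theorem meas_be (hG : G.Countable) (n : ℕ) : MeasurableSet (Be f G n) :=
  (hG.mono fun _ hx => hx.1).measurableSet

theorem exists_be (hG : G.Countable) (μ : Measure X) [IsProbabilityMeasure μ] (hμ : ∀ᵐ x ∂μ, x ∈ G)
    {δ : ℝ} (hδ : 0 < δ) : ∃ N : ℕ, μ.real (Be f G N)ᶜ ≤ δ := by
  have hmono : Monotone (Be f G) := fun m n hmn x hx => ⟨hx.1, lt_of_lt_of_le hx.2 hmn⟩
  have h1 := tendsto_measure_iUnion_atTop (μ := μ) hmono
  have h2 : ⋃ n, Be f G n = G := by
    ext x
    simp only [Set.mem_iUnion]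
    exact ⟨fun ⟨n, hn⟩ => hn.1, fun hx => ⟨f x + 1, hx, Nat.lt_succ_self _⟩⟩
  have h3 : μ G = 1 := by
    rw [← prob_compl_eq_zero_iff hG.measurableSet]
    exact hμ
  rw [h2, h3] at h1
  have h4 : Tendsto (fun n => μ.real (Be f G n)) atTop (𝓝 1) := by
    have := (ENNReal.tendsto_toReal ENNReal.one_ne_top).comp h1
    rw [ENNReal.toReal_one] at this
    exact this
  have h5 : ∀ᶠ n in atTop, 1 - δ < μ.real (Be f G n) := h4.eventually (lt_mem_nhds (by linarith))
  obtain ⟨N, hN⟩ := h5.exists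
  refine ⟨N, ?_⟩
  rw [probReal_compl_eq_one_sub (meas_be hG N)]
  linarith

theorem compare (hG : G.Countable) (hf : Set.InjOn f G) (μ ν : Measure X) [IsProbabilityMeasure μ]
    [IsProbabilityMeasure ν] {δ : ℝ} (hδ : 0 < δ) {N : ℕ} (w : Fin N → ℚ)
    (h1 : μ.real (Be f G N)ᶜ ≤ δ) (h2 : ∀ n : Fin N, |μ.real (At f G n) - w n| ≤ δ / (N + 1))
    (h3 : ∀ n : Fin N, |ν.real (At f G n) - w n| ≤ δ / (N + 1)) {E : Set X} (hE : MeasurableSet E) :
    μ.real E ≤ ν.real E + 3 * δ := by
  have e1 : E ⊆ (⋃ n ∈ (Finset.univ : Finset (Fin N)), E ∩ At f G n) ∪ (Be f G N)ᶜ := by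
    intro x hx
    by_cases hb : x ∈ Be f G N
    · left
      simp only [Set.mem_iUnion, Finset.mem_univ, exists_prop, true_and]
      exact ⟨⟨f x, hb.2⟩, hx, hb.1, rfl⟩
    · right
      exact hb
  have e2 : μ.real E ≤ (∑ n : Fin N, μ.real (E ∩ At f G n)) + δ := by
    refine (measureReal_mono e1).trans ((measureReal_union_le _ _).trans (add_le_add ?_ h1))
    exact measureReal_biUnion_finset_le _ _
  have e3 : ∀ n : Fin N, μ.real (E ∩ At f G n) ≤ ν.real (E ∩ At f G n) + 2 * (δ / (N + 1)) := by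
    intro n
    have hN : (0 : ℝ) < δ / (N + 1) := by positivity
    by_cases hn : (E ∩ At f G n).Nonempty
    · obtain ⟨x, hxE, hxG, hxn⟩ := hn
      have h4 : E ∩ At f G n = At f G n := by
        refine Set.inter_eq_right.2 fun y hy => ?_
        have : y = x := hf hy.1 hxG (hy.2.trans hxn.symm)
        rw [this]
        exact hxE
      rw [h4]
      have h5 := abs_le.1 (h2 n)
      have h6 := abs_le.1 (h3 n)
      linarith [h5.2, h6.1]
    · rw [Set.not_nonempty_iff_eq_empty.1 hn]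
      simp only [measureReal_empty]
      linarith
  have e4 : ∑ n : Fin N, ν.real (E ∩ At f G n) ≤ ν.real E := by
    have h7 : ν.real (⋃ n ∈ (Finset.univ : Finset (Fin N)), E ∩ At f G n) =
        ∑ n : Fin N, ν.real (E ∩ At f G n) := by
      refine measureReal_biUnion_finset (fun m _ n _ hmn => ?_) (fun n _ => hE.inter (meas_at hG n))
      refine Set.disjoint_left.2 fun x hx hx' => hmn ?_
      exact Fin.ext (hx.2.2.symm.trans hx'.2.2)
    rw [← h7]
    refine measureReal_mono ?_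
    exact Set.iUnion₂_subset fun n _ => Set.inter_subset_left
  have e5 : ∑ n : Fin N, μ.real (E ∩ At f G n) ≤ (∑ n : Fin N, ν.real (E ∩ At f G n)) + 2 * δ := by
    refine (Finset.sum_le_sum fun n _ => e3 n).trans ?_
    rw [Finset.sum_add_distrib, Finset.sum_const, Finset.card_univ, Fintype.card_fin, nsmul_eq_mul]
    have h8 : (N : ℝ) * (2 * (δ / (N + 1))) ≤ 2 * δ := by
      have hN : (0 : ℝ) < N + 1 := by positivity
      rw [← mul_div_assoc, ← mul_div_assoc, div_le_iff₀ hN]
      nlinarith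
    linarith
  linarith

end approx

theorem t_I : Pool.Agent.Zk83.SB.StI := by
  intro X _ _ G hG lam hlam E hE a b η hη hI hae
  classical
  obtain ⟨f, hf⟩ : ∃ f : X → ℕ, Set.InjOn f G := by
    obtain ⟨g, hg⟩ := hG.exists_injective_nat'
    refine ⟨fun x => if h : x ∈ G then g ⟨x, h⟩ else 0, fun x hx y hy hxy => ?_⟩
    simp only [hx, hy, dif_pos] at hxy
    exact congrArg Subtype.val (hg hxy)
  set δ : ℝ := η / 8 with hδ'
  have hδ : 0 < δ := by positivity
  let S : (Σ N : ℕ, (Fin N → ℚ)) × ℕ → Set (ℕ → Bool) := fun l =>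
    {U | (lam U).real (Be f G l.1.1)ᶜ ≤ δ ∧
      (∀ n : Fin l.1.1, |(lam U).real (At f G n) - l.1.2 n| ≤ δ / (l.1.1 + 1)) ∧
      ∀ i, l.2 ≤ i → |(lam U).real (E i) - (if U i then b i else a i)| ≤ η}
  have hS : ∀ l, coin (S l) = 0 := by
    rintro ⟨⟨N, w⟩, i₀⟩
    by_cases hne : (S ⟨⟨N, w⟩, i₀⟩).Nonempty
    swap
    · rw [Set.not_nonempty_iff_eq_empty.1 hne, measure_empty]
    obtain ⟨V, hV1, hV2, hV3⟩ := hne
    have hinf : {i : ℕ | i₀ ≤ i ∧ 3 * η < |a i - b i|}.Infinite := by
      rw [Nat.frequently_atTop_iff_infinite] at hI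
      refine (hI.sdiff (Set.finite_Iio i₀)).mono fun i hi => ⟨?_, hi.1⟩
      exact not_lt.1 hi.2
    refine measure_mono_null ?_ (coin_null _ hinf V)
    rintro U ⟨hU1, hU2, hU3⟩ i ⟨hi, hi'⟩
    by_contra hne'
    have c1 := compare hG hf (lam U) (lam V) hδ w hU1 hU2 hV2 (hE i)
    have c2 := compare hG hf (lam V) (lam U) hδ w hV1 hV2 hU2 (hE i)
    have c3 := abs_le.1 (hU3 i hi)
    have c4 := abs_le.1 (hV3 i hi)
    have c5 : |a i - b i| ≤ 3 * η := by
      rw [abs_le]
      cases hUi : U i <;> cases hVi : V i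
      · exact absurd (hUi.trans hVi.symm) hne'
      · rw [hUi] at c3
        rw [hVi] at c4
        simp only [Bool.false_eq_true, if_false, if_true] at c3 c4
        constructor <;> linarith
      · rw [hUi] at c3
        rw [hVi] at c4
        simp only [Bool.false_eq_true, if_false, if_true] at c3 c4
        constructor <;> linarith
      · exact absurd (hUi.trans hVi.symm) hne'
    linarith
  have huniv : (Set.univ : Set (ℕ → Bool)) ⊆ {U | ¬ ((∀ᵐ x ∂(lam U), x ∈ G) ∧
      ∀ᶠ i in atTop, |(lam U).real (E i) - (if U i then b i else a i)| ≤ η)} ∪ ⋃ l, S l := by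
    intro U _
    by_cases hU : (∀ᵐ x ∂(lam U), x ∈ G) ∧
      ∀ᶠ i in atTop, |(lam U).real (E i) - (if U i then b i else a i)| ≤ η
    swap
    · left
      exact hU
    right
    obtain ⟨hU1, hU2⟩ := hU
    obtain ⟨i₀, hi₀⟩ := eventually_atTop.1 hU2
    obtain ⟨N, hN⟩ := exists_be (f := f) hG (lam U) hU1 hδ
    have hpos : (0 : ℝ) < δ / (N + 1) := by positivity
    choose w hw using fun n : Fin N => exists_rat_near ((lam U).real (At f G n)) hpos
    exact Set.mem_iUnion.2 ⟨⟨⟨N, w⟩, i₀⟩, hN, fun n => (hw n).le, hi₀⟩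
  have hzero : coin (Set.univ : Set (ℕ → Bool)) = 0 := by
    refine measure_mono_null huniv (measure_union_null hae (measure_iUnion_null hS))
  rw [measure_univ] at hzero
  exact one_ne_zero hzero

end Pool.Agent.Zk69.SB
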